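import Pool.Agent.Lib_1de93e.ArctanPerp

/-!
# MP_1de93e_gt: symmetric (foot-)perpendicularity does not force Radon or Riemannian

The complete Finslerian projective-metric plane
`d x y = ‖x - y‖ + |arctan x₀ - arctan y₀|` on `ℝ²` has symmetric perpendicularity of lines (the
perpendicular pairs of lines are exactly the pairs of one horizontal and one vertical line), but
it is neither isometric to a Minkowski plane (in particular not a Radon plane) nor Riemannian.
-/

namespace Pool.Agent.Results.MP_1de93e_gt.FootPerpendicularity

open Pool.Agent.Lib_1de93e Set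

theorem result : ∃ (M : Set Pl) (F d : Pl → Pl → ℝ),
    IsProjectiveMetric M d ∧ IsCompleteMetric M d ∧ IsFinsler M F ∧ IsLengthMetric M F d ∧
    SymmetricPerp M d ∧
    (∃ O ∈ M, ∃ u v : Pl, LinearIndependent ℝ ![u, v] ∧ Perp M d O u v) ∧
    ¬ IsMinkowskiPlane M d ∧ ¬ IsRiemannian M d := by
  refine ⟨univ, FA, dA, dA_isProjectiveMetric, dA_complete, FA_isFinsler, dA_isLengthMetric,
    dA_symmetricPerp, ⟨0, mem_univ _, e₀, e₁, ?_, ?_⟩, dA_not_minkowski, dA_not_riemannian⟩
  · rw [LinearIndependent.pair_iff]
    intro s t hst
    constructor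
    · have := congrArg (fun x : Pl => x 0) hst
      simpa using this
    · have := congrArg (fun x : Pl => x 1) hst
      simpa using this
  · exact perp_horizontal_vertical e₀_one e₁_zero

end Pool.Agent.Results.MP_1de93e_gt.FootPerpendicularity
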