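import Pool.Agent.Lib_MP_1de93e_cont.Final

/-!
# MP_1de93e_gt: perpendicularity in the tangent planes, merely continuous Finsler functions

Let `(M, d)` be a projective-metric plane (affine or elliptic type), `d` the length metric of a
Finsler function `F` which is only assumed to be continuous. Suppose that Birkhoff orthogonality
is symmetric in every tangent plane, i.e. that every tangent Minkowski plane is a Radon plane.

* Affine type: the plane is Riemannian, or a projective map embeds it isometrically in a Radon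
  plane; if `(M, d)` is complete, then in the second case it is a Radon plane.
* Elliptic type: the plane is Riemannian.
-/

namespace Pool.Agent.Results.MP_1de93e_gt.RadonTangentClassification

open Set Pool.Agent.Lib_1de93e

theorem result :
    (∀ (M : Set Pl) (F d : Pl → Pl → ℝ),
      IsProjectiveMetric M d → IsFinsler M F → IsLengthMetric M F d →
      (∀ x ∈ M, SymmBirkhoff (F x)) →
      (∀ P ∈ M, IsEuclidean (F P)) ∨
      ∃ N : Pl → ℝ, IsNorm N ∧ SymmBirkhoff N ∧
        (∃ x₀ ∈ M, ∃ m : Pl →L[ℝ] ℝ, (∀ x ∈ M, 0 < 1 + m (x - x₀)) ∧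
          ∀ P ∈ M, ∀ Q ∈ M, d P Q = N (prj x₀ m Q - prj x₀ m P)) ∧
        (IsCompleteMetric M d → M = univ ∧ ∀ P Q : Pl, d P Q = N (Q - P))) ∧
    (∀ (F D : E3 → E3 → ℝ) (ℓ : ℝ),
      IsEllipticMetric D ℓ → IsFinslerP2 F → IsLengthMetricP2 F D →
      (∀ x : E3, x ≠ 0 → ∀ u v : E3, (∀ s : ℝ, F x u ≤ F x (u + s • v)) →
        ∀ s : ℝ, F x v ≤ F x (v + s • u)) →
      ∀ P : E3, P ≠ 0 → IsEuclideanP2 (F P)) := by
  constructor
  · intro M F d hd hF hL hsym
    exact Pool.Agent.L1de93c.affine_full hd hF hL hsym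
  · intro F D ℓ hD hF hL hsym
    exact Pool.Agent.L1de93c.elliptic_full hD hF hL hsym

end Pool.Agent.Results.MP_1de93e_gt.RadonTangentClassification
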