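import Pool.Agent.Lib_1de93e.Ell3
import Pool.Agent.Lib_1de93e.ConvexBalls

/-!
# MP_1de93e_gt: planes with symmetric perpendicularity of lines

Perpendicularity of lines is meant in the sense of the distance: `g` is perpendicular to `h` at
`O` if `d X O ≤ d X Y` for all `X` on `g` and `Y` on `h`. Let `(M, d)` be a Finslerian
projective-metric plane (the Finsler function is only assumed to be continuous) in which
perpendicularity is symmetric, and assume that all balls are convex or that every line has a
perpendicular at each of its points (the first implies the second, by separation of convex sets).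

* Affine type: the plane is Riemannian, or a projective map embeds it isometrically in a Radon
  plane; if `(M, d)` is complete, then in the second case it is a Radon plane.
* Elliptic type (every line has a perpendicular at each of its points): the plane is Riemannian.
-/

namespace Pool.Agent.Results.MP_1de93e_gt.SymmetricPerpClassification

open Set Pool.Agent.Lib_1de93e

theorem result :
    (∀ (M : Set Pl) (F d : Pl → Pl → ℝ),
      IsProjectiveMetric M d → IsFinsler M F → IsLengthMetric M F d →
      (HasConvexBalls M d ∨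
        ∀ O ∈ M, ∀ v : Pl, v ≠ 0 → ∃ u : Pl, u ≠ 0 ∧ Perp M d O u v) →
      SymmetricPerp M d →
      (∀ P ∈ M, IsEuclidean (F P)) ∨
      ∃ N : Pl → ℝ, IsNorm N ∧ SymmBirkhoff N ∧
        (∃ x₀ ∈ M, ∃ m : Pl →L[ℝ] ℝ, (∀ x ∈ M, 0 < 1 + m (x - x₀)) ∧
          ∀ P ∈ M, ∀ Q ∈ M, d P Q = N (prj x₀ m Q - prj x₀ m P)) ∧
        (IsCompleteMetric M d → M = univ ∧ ∀ P Q : Pl, d P Q = N (Q - P))) ∧
    (∀ (F D : E3 → E3 → ℝ) (ℓ : ℝ),
      IsEllipticMetric D ℓ → IsFinslerP2 F → IsLengthMetricP2 F D →
      (∀ O v : E3, LinearIndependent ℝ ![O, v] →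
        ∃ u : E3, LinearIndependent ℝ ![O, u] ∧ PerpP2 D O u v) → SymmetricPerpP2 D →
      ∀ P : E3, P ≠ 0 → IsEuclideanP2 (F P)) := by
  constructor
  · intro M F d hd hF hL hex hsym
    have hex' : ∀ O ∈ M, ∀ v : Pl, v ≠ 0 → ∃ u : Pl, u ≠ 0 ∧ Perp M d O u v := by
      rcases hex with hb | hex
      · intro O hO v hv
        exact exists_perp_of_convexBalls' hd hb hsym hO hv
      · exact hex
    exact (PPlane.of_exists ⟨hd, hF, hL⟩ hex' hsym).toLPlane.main
  · intro F D ℓ hD hF hL hex hsym
    exact elliptic_main hF hL hD hex hsym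

end Pool.Agent.Results.MP_1de93e_gt.SymmetricPerpClassification
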